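import Pool.Agent.H61B.HamPath

/-!
# Hamiltonian paths in bipartite graphs with small sides: the main statement
-/

set_option autoImplicit false

namespace Pool.Agent.H61B

open SimpleGraph Finset

variable {V : Type*}

theorem card_odd (L : ℕ) : ((range L).filter (fun i => i % 2 = 1)).card = L / 2 := by
  induction L with
  | zero => simp
  | succ n ih =>
    rw [range_add_one, filter_insert]
    split_ifs with h
    · rw [card_insert_of_notMem (by simp), ih]
      omega
    · rw [ih]
      omega

theorem card_even (L : ℕ) : ((range L).filter (fun i => i % 2 = 0)).card = (L + 1) / 2 := by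
  induction L with
  | zero => simp
  | succ n ih =>
    rw [range_add_one, filter_insert]
    split_ifs with h
    · rw [card_insert_of_notMem (by simp), ih]
      omega
    · rw [ih]
      omega

theorem col {G : SimpleGraph V} {c : V → Bool} (hc : ∀ u v, G.Adj u v → c u ≠ c v) {L : ℕ}
    {p : ℕ → V} (h : Pa G L p) : ∀ i, i < L → (c (p i) = c (p 0) ↔ i % 2 = 0) := by
  intro i
  induction i with
  | zero => simp
  | succ i ih =>
    intro hi
    have h1 := ih (by omega)
    have h2 := hc _ _ (h.adj i hi)
    by_cases h3 : c (p i) = c (p 0)
    · have h4 := h1.mp h3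
      constructor
      · intro h5
        exact absurd (h3.trans h5.symm) h2
      · intro h5
        omega
    · have h4 : ¬ i % 2 = 0 := fun h => h3 (h1.mpr h)
      constructor
      · intro _
        omega
      · intro _
        revert h2 h3
        cases c (p i) <;> cases c (p (i + 1)) <;> cases c (p 0) <;> simp

theorem ham_path [Fintype V] [DecidableEq V] {G : SimpleGraph V} [DecidableRel G.Adj]
    (hG : G.Connected) (c : V → Bool) (hc : ∀ u v, G.Adj u v → c u ≠ c v) {k : ℕ} (hk : 1 ≤ k)
    (hdeg : ∀ v, k ≤ (univ.filter (fun w => G.Adj v w)).card)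
    (hside : ∀ b, (univ.filter (fun v => c v = b)).card ≤ 2 * k)
    (hdiff : ∀ b, (univ.filter (fun v => c v = b)).card
      ≤ (univ.filter (fun v => c v = !b)).card + 1) :
    ∃ p, Pa G (Fintype.card V) p := by
  have hne := hG.nonempty
  obtain ⟨L, p, hL0, hp, hmax⟩ := exists_max G
  have hLn : L ≤ Fintype.card V := by
    have : (range L).card ≤ (univ : Finset V).card :=
      card_le_card_of_injOn p (fun _ _ => mem_univ _) (by
        intro a ha b hb e
        rw [mem_coe, mem_range] at ha hb
        exact hp.inj a b ha hb e)
    simpa using this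
  rcases hLn.eq_or_lt with hLe | hLt
  · rw [← hLe]
    exact ⟨p, hp⟩
  exfalso
  set b := c (p 0) with hb
  -- sizes of the sides
  have hcard : Fintype.card V = (univ.filter (fun v => c v = b)).card
      + (univ.filter (fun v => c v = !b)).card := by
    have h1 : (univ.filter (fun v => c v = !b)) = univ.filter (fun v => ¬ c v = b) := by
      ext v
      simp only [mem_filter, mem_univ, true_and]
      cases c v <;> cases b <;> simp
    rw [h1, card_filter_add_card_filter_not, card_univ]
  have hs1 := hside b
  have hs2 := hside (!b)
  -- the neighbours of the head of a path are on the path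
  have hnb : ∀ q, Pa G L q → ∀ w, (∀ i, i < L → q i ≠ w) → ¬ G.Adj w (q 0) := by
    intro q hq w hw ha
    exact hmax _ (hq.cons hw (fun _ => ha))
  set I := (range L).filter (fun i => i + 1 < L ∧ G.Adj (p 0) (p (i + 1))) with hI
  set J := (range L).filter (fun j => j + 1 < L ∧ G.Adj (p (L - 1)) (p j)) with hJ
  have hIk : k ≤ I.card := by
    refine (hdeg (p 0)).trans ?_
    have hsub : (univ.filter (fun w => G.Adj (p 0) w)) ⊆ I.image (fun i => p (i + 1)) := by
      intro w hw
      rw [mem_filter] at hw
      have : ¬ ∀ i, i < L → p i ≠ w := fun h => hnb p hp w h hw.2.symm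
      push Not at this
      obtain ⟨i, hi, e⟩ := this
      have hi0 : i ≠ 0 := by
        rintro rfl
        rw [e] at hw
        exact G.loopless.irrefl _ hw.2
      rw [mem_image]
      refine ⟨i - 1, ?_, ?_⟩
      · rw [hI, mem_filter, mem_range]
        have e2 : i - 1 + 1 = i := by omega
        rw [e2, e]
        exact ⟨by omega, hi, hw.2⟩
      · show p (i - 1 + 1) = w
        rw [show i - 1 + 1 = i by omega]
        exact e
    exact (card_le_card hsub).trans card_image_le
  have hJk : k ≤ J.card := by
    refine (hdeg (p (L - 1))).trans ?_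
    have hsub : (univ.filter (fun w => G.Adj (p (L - 1)) w)) ⊆ J.image p := by
      intro w hw
      rw [mem_filter] at hw
      have : ¬ ∀ i, i < L → p i ≠ w := by
        intro h
        refine hnb _ hp.rev w ?_ ?_
        · intro i hi
          exact h _ (by omega)
        · show G.Adj w (p (L - 1 - 0))
          exact hw.2.symm
      push Not at this
      obtain ⟨i, hi, e⟩ := this
      have hi0 : i ≠ L - 1 := by
        rintro rfl
        rw [e] at hw
        exact G.loopless.irrefl _ hw.2
      rw [mem_image]
      refine ⟨i, ?_, e⟩
      rw [hJ, mem_filter, mem_range, e]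
      exact ⟨hi, by omega, hw.2⟩
    exact (card_le_card hsub).trans card_image_le
  -- colours
  have hcol := col hc hp
  have hIe : ∀ i ∈ I, i % 2 = 0 := by
    intro i hi
    rw [hI, mem_filter, mem_range] at hi
    rw [← hcol i hi.1]
    have h1 := hc _ _ hi.2.2
    have h2 := hc _ _ (hp.adj i hi.2.1)
    revert h1 h2
    cases c (p i) <;> cases c (p (i + 1)) <;> cases c (p 0) <;> simp
  rcases Nat.even_or_odd' L with ⟨t, ht | ht⟩
  · -- ends of different colours: crossing chords
    have hlast : c (p (L - 1)) ≠ c (p 0) := by
      intro h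
      have := (hcol (L - 1) (by omega)).mp h
      omega
    have hJe : ∀ i ∈ J, i % 2 = 0 := by
      intro i hi
      rw [hJ, mem_filter, mem_range] at hi
      rw [← hcol i hi.1]
      have h1 := hc _ _ hi.2.2
      revert h1 hlast
      cases c (p i) <;> cases c (p (L - 1)) <;> cases c (p 0) <;> simp
    have hex : ∃ i, i ∈ I ∧ i ∈ J := by
      by_contra hcon
      push Not at hcon
      have hd : Disjoint I J := by
        rw [Finset.disjoint_left]
        exact hcon
      have h1 : (I ∪ J).card = I.card + J.card := card_union_of_disjoint hd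
      have h2 : I ∪ J ⊆ (range L).filter (fun i => i % 2 = 0) := by
        intro i hi
        rw [mem_union] at hi
        rw [mem_filter]
        rcases hi with hi | hi
        · exact ⟨(mem_filter.mp (hI ▸ hi)).1, hIe i hi⟩
        · exact ⟨(mem_filter.mp (hJ ▸ hi)).1, hJe i hi⟩
      have h3 := card_le_card h2
      rw [card_even, h1] at h3
      omega
    obtain ⟨i, hiI, hiJ⟩ := hex
    rw [hI, mem_filter, mem_range] at hiI
    rw [hJ, mem_filter, mem_range] at hiJ
    have hq := hp.rot hiI.2.1 hiI.2.2
    set q : ℕ → V := fun j => if j ≤ i then p (i - j) else p j with hqd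
    have hqr : ∀ j, j < L → ∃ j', j' < L ∧ q j = p j' := by
      intro j hj
      by_cases h1 : j ≤ i
      · exact ⟨i - j, by omega, by rw [hqd]; simp only [if_pos h1]⟩
      · exact ⟨j, hj, by rw [hqd]; simp only [if_neg h1]⟩
    have hq0 : q 0 = p i := by
      rw [hqd]
      simp
    have hql : q (L - 1) = p (L - 1) := by
      rw [hqd]
      simp only
      rw [if_neg (by omega)]
    have hcl : G.Adj (q (L - 1)) (q 0) := by
      rw [hq0, hql]
      exact hiJ.2.2
    -- a vertex outside adjacent to the path
    have hout : ∃ t, t < L ∧ ∃ w, (∀ j, j < L → q j ≠ w) ∧ G.Adj (q t) w := by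
      have h1 : ∃ w, ∀ j, j < L → q j ≠ w := by
        by_contra hcon
        push Not at hcon
        have : (univ : Finset V) ⊆ (range L).image q := by
          intro w _
          obtain ⟨j, hj, e⟩ := hcon w
          exact mem_image.mpr ⟨j, mem_range.mpr hj, e⟩
        have := (card_le_card this).trans card_image_le
        rw [card_range, card_univ] at this
        omega
      obtain ⟨w, hw⟩ := h1
      obtain ⟨W⟩ := hG.preconnected (q 0) w
      obtain ⟨d, -, h2, h3⟩ := W.exists_boundary_dart {x | ∃ j, j < L ∧ q j = x}
        ⟨0, hL0, rfl⟩ (fun ⟨j, hj, e⟩ => hw j hj e)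
      obtain ⟨s, hs, e⟩ := h2
      refine ⟨s, hs, d.snd, ?_, ?_⟩
      · intro j hj e2
        exact h3 ⟨j, hj, e2⟩
      · rw [e]
        exact d.adj
    obtain ⟨s, hs, w, hw, haw⟩ := hout
    refine hnb _ (hq.cut hcl hs) w ?_ ?_
    · intro j hj
      by_cases h1 : s + j < L
      · simp only [if_pos h1]
        exact hw _ h1
      · simp only [if_neg h1]
        exact hw _ (by omega)
    · simp only [add_zero, if_pos hs]
      exact haw.symm
  · -- ends of the same colour
    have hlast : c (p (L - 1)) = c (p 0) := (hcol (L - 1) (by omega)).mpr (by omega)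
    have hy : ∃ y, c y = (!b) ∧ ∀ j, j < L → p j ≠ y := by
      by_contra hcon
      push Not at hcon
      have hsub : (univ.filter (fun v => c v = !b)) ⊆
          ((range L).filter (fun i => i % 2 = 1)).image p := by
        intro v hv
        rw [mem_filter] at hv
        obtain ⟨j, hj, e⟩ := hcon v hv.2
        rw [mem_image]
        refine ⟨j, ?_, e⟩
        rw [mem_filter, mem_range]
        refine ⟨hj, ?_⟩
        have h1 := hcol j hj
        have h2 : ¬ c (p j) = c (p 0) := by
          rw [e, hv.2, hb]
          cases c (p 0) <;> simp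
        have : ¬ j % 2 = 0 := fun h => h2 (h1.mpr h)
        omega
      have h1 := (card_le_card hsub).trans card_image_le
      rw [card_odd] at h1
      have h2 := hdiff b
      omega
    obtain ⟨y, hyc, hyo⟩ := hy
    set E := I.image p with hE
    set E' := J.image (fun j => p (j + 1)) with hE'
    have hnE : ∀ x ∈ E, ¬ G.Adj y x := by
      intro x hx
      rw [hE, mem_image] at hx
      obtain ⟨i, hi, rfl⟩ := hx
      rw [hI, mem_filter, mem_range] at hi
      have hq := hp.rot hi.2.1 hi.2.2
      have := hnb _ hq y (by
        intro j hj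
        by_cases h1 : j ≤ i
        · simp only [if_pos h1]
          exact hyo _ (by omega)
        · simp only [if_neg h1]
          exact hyo _ hj)
      simpa using this
    have hnE' : ∀ x ∈ E', ¬ G.Adj y x := by
      intro x hx
      rw [hE', mem_image] at hx
      obtain ⟨j, hj, rfl⟩ := hx
      rw [hJ, mem_filter, mem_range] at hj
      have e1 : L - 1 - (L - 2 - j + 1) = j := by omega
      have e2 : L - 1 - (L - 2 - j) = j + 1 := by omega
      have hq := hp.rev.rot (i := L - 2 - j) (by omega) (by
        show G.Adj (p (L - 1 - 0)) (p (L - 1 - (L - 2 - j + 1)))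
        rw [e1]
        exact hj.2.2)
      have := hnb _ hq y (by
        intro l hl
        by_cases h1 : l ≤ L - 2 - j
        · simp only [if_pos h1]
          exact hyo _ (by omega)
        · simp only [if_neg h1]
          exact hyo _ (by omega))
      simp only [Nat.zero_le, if_true, Nat.sub_zero, e2] at this
      exact this
    have hEc : ∀ x ∈ E, c x = b := by
      intro x hx
      rw [hE, mem_image] at hx
      obtain ⟨i, hi, rfl⟩ := hx
      have h1 := hIe i hi
      rw [hI, mem_filter, mem_range] at hi
      exact (hcol i hi.1).mpr h1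
    have hE'c : ∀ x ∈ E', c x = b := by
      intro x hx
      rw [hE', mem_image] at hx
      obtain ⟨j, hj, rfl⟩ := hx
      rw [hJ, mem_filter, mem_range] at hj
      have h1 := hc _ _ hj.2.2
      have h2 := hc _ _ (hp.adj j hj.2.1)
      rw [hb]
      revert h1 h2 hlast
      cases c (p j) <;> cases c (p (j + 1)) <;> cases c (p (L - 1)) <;> cases c (p 0) <;> simp
    have hE'k : k ≤ E'.card := by
      rw [hE', card_image_of_injOn]
      · exact hJk
      · intro a ha b' hb' e
        rw [mem_coe, hJ, mem_filter, mem_range] at ha hb'
        have := hp.inj _ _ ha.2.1 hb'.2.1 e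
        omega
    have hp0E : p 0 ∈ E := by
      rw [hE, mem_image]
      refine ⟨0, ?_, rfl⟩
      have : I.Nonempty := card_pos.mp (by omega)
      obtain ⟨i, hi⟩ := this
      rw [hI, mem_filter, mem_range] at hi
      rw [hI, mem_filter, mem_range]
      exact ⟨hL0, by omega, hp.adj 0 (by omega)⟩
    have hp0E' : p 0 ∉ E' := by
      rw [hE', mem_image]
      rintro ⟨j, hj, e⟩
      rw [hJ, mem_filter, mem_range] at hj
      have := hp.inj _ _ hj.2.1 hL0 e
      omega
    have hU : k + 1 ≤ (E ∪ E').card := by
      have h1 : insert (p 0) E' ⊆ E ∪ E' := by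
        intro x hx
        rw [mem_insert] at hx
        rw [mem_union]
        rcases hx with rfl | hx
        · exact Or.inl hp0E
        · exact Or.inr hx
      have h2 := card_le_card h1
      rw [card_insert_of_notMem hp0E'] at h2
      omega
    have hdis : Disjoint (E ∪ E') (univ.filter (fun w => G.Adj y w)) := by
      rw [Finset.disjoint_left]
      intro x hx hx2
      rw [mem_union] at hx
      rw [mem_filter] at hx2
      rcases hx with hx | hx
      · exact hnE x hx hx2.2
      · exact hnE' x hx hx2.2
    have hsub : (E ∪ E') ∪ (univ.filter (fun w => G.Adj y w)) ⊆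
        univ.filter (fun v => c v = b) := by
      intro x hx
      rw [mem_union, mem_union] at hx
      rw [mem_filter]
      refine ⟨mem_univ _, ?_⟩
      rcases hx with (hx | hx) | hx
      · exact hEc x hx
      · exact hE'c x hx
      · rw [mem_filter] at hx
        have := hc _ _ hx.2
        rw [hyc] at this
        revert this
        cases c x <;> cases b <;> simp
    have h1 := card_le_card hsub
    rw [card_union_of_disjoint hdis] at h1
    have h2 := hdeg y
    omega

/-- from a function to a walk -/
theorem exists_walk {G : SimpleGraph V} : ∀ (L : ℕ) (p : ℕ → V),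
    (∀ i, i < L → G.Adj (p i) (p (i + 1))) →
    ∃ w : G.Walk (p 0) (p L), w.support = (List.range (L + 1)).map p := by
  intro L
  induction L with
  | zero =>
    intro p _
    exact ⟨Walk.nil, by simp⟩
  | succ L ih =>
    intro p h
    obtain ⟨w, hw⟩ := ih (fun i => p (i + 1)) (fun i hi => h (i + 1) (by omega))
    refine ⟨Walk.cons (h 0 (by omega)) w, ?_⟩
    rw [Walk.support_cons, hw, List.range_succ_eq_map (n := L + 1), List.map_cons, List.map_map]
    rfl

theorem walk_of_pa [Fintype V] [Nonempty V] {G : SimpleGraph V} {p : ℕ → V}
    (h : Pa G (Fintype.card V) p) :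
    ∃ (u v : V) (w : G.Walk u v), w.IsPath ∧ ∀ x, x ∈ w.support := by
  classical
  have h0 : 0 < Fintype.card V := Fintype.card_pos
  obtain ⟨w, hw⟩ := exists_walk (Fintype.card V - 1) p (fun i hi => h.adj i (by omega))
  refine ⟨_, _, w, ?_, ?_⟩
  · rw [Walk.isPath_def, hw]
    rw [List.nodup_map_iff_inj_on List.nodup_range]
    intro a ha b hb e
    rw [List.mem_range] at ha hb
    exact h.inj a b (by omega) (by omega) e
  · intro x
    rw [hw, List.mem_map]
    have hs : (range (Fintype.card V)).image p = univ := by
      apply eq_of_subset_of_card_le (subset_univ _)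
      rw [card_image_of_injOn, card_range, card_univ]
      intro a ha b hb e
      rw [mem_coe, mem_range] at ha hb
      exact h.inj a b ha hb e
    have := mem_univ x
    rw [← hs, mem_image] at this
    obtain ⟨i, hi, e⟩ := this
    rw [mem_range] at hi
    exact ⟨i, List.mem_range.mpr (by omega), e⟩

end Pool.Agent.H61B
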