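import Pool.Agent.H37TR.Main
import Pool.Agent.H61B.HamMain

/-!
# Bipartite graphs whose largest induced tree has at most `κ + 2` vertices
-/

set_option autoImplicit false

namespace Pool.Agent.H61B

open SimpleGraph Finset Pool.Agent.H37TR

variable {V : Type*} [Fintype V] [DecidableEq V]

open scoped Classical in
/-- the neighbourhood as a finite set -/
noncomputable def Nb (G : SimpleGraph V) (v : V) : Finset V := univ.filter (fun w => G.Adj v w)

theorem mem_Nb {G : SimpleGraph V} {v w : V} : w ∈ Nb G v ↔ G.Adj v w := by
  unfold Nb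
  simp

/-- adding several leaves at the same vertex -/
theorem leaves {G : SimpleGraph V} {T : Finset V} (hT : IT G T) {u : V} (hu : u ∈ T) :
    ∀ S : Finset V, (∀ s ∈ S, s ∉ T ∧ G.Adj u s ∧ ∀ w ∈ T, G.Adj w s → w = u) →
    (∀ s ∈ S, ∀ t ∈ S, ¬ G.Adj s t) → IT G (T ∪ S) := by
  intro S
  induction S using Finset.induction_on with
  | empty =>
    intro _ _
    rw [union_empty]
    exact hT
  | insert s S hs ih =>
    intro h1 h2
    have h3 := ih (fun t ht => h1 t (mem_insert_of_mem ht))
      (fun t ht t' ht' => h2 t (mem_insert_of_mem ht) t' (mem_insert_of_mem ht'))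
    obtain ⟨h4, h5, h6⟩ := h1 s (mem_insert_self _ _)
    have h7 := h3.leaf (u := u) (v := s) (by
        rw [mem_union]
        rintro (h | h)
        · exact h4 h
        · exact hs h) (mem_union_left _ hu) h5 (by
        intro w hw ha
        rw [mem_union] at hw
        rcases hw with hw | hw
        · exact h6 w hw ha
        · exact absurd ha (h2 w (mem_insert_of_mem hw) s (mem_insert_self _ _)))
    rwa [union_insert]

theorem deg_ge (G : SimpleGraph V) (v : V) : vertexConnectivity G ≤ (Nb G v).card := by
  unfold vertexConnectivity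
  refine Nat.sInf_le ⟨Nb G v, rfl, ?_⟩
  by_cases h : ∀ w, w ∉ Nb G v → w = v
  · right
    have e : ((Nb G v : Finset V) : Set V)ᶜ = {v} := by
      ext w
      simp only [Set.mem_compl_iff, mem_coe, Set.mem_singleton_iff]
      constructor
      · exact h w
      · rintro rfl
        rw [mem_Nb]
        exact G.loopless.irrefl _
    rw [e, Set.ncard_singleton]
  · left
    push Not at h
    obtain ⟨w, hw, hne⟩ := h
    intro hp
    have hv : v ∉ Nb G v := by
      rw [mem_Nb]
      exact G.loopless.irrefl _
    have := hp ⟨v, by simpa using hv⟩ ⟨w, by simpa using hw⟩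
    obtain ⟨p⟩ := this
    cases p with
    | nil => exact hne rfl
    | cons hadj _ =>
      rename_i x _
      have h1 : G.Adj v x.1 := hadj
      have h2 := x.2
      simp only [Set.mem_compl_iff, mem_coe, mem_Nb] at h2
      exact h2 h1

section

variable {G : SimpleGraph V} {c : V → Bool} (hc : ∀ u v, G.Adj u v → c u ≠ c v)

include hc

theorem not_adj_of_col {u v : V} (h : c u = c v) : ¬ G.Adj u v := fun ha => hc u v ha h

theorem col_eq {u v w : V} (h1 : G.Adj u v) (h2 : G.Adj v w) : c u = c w := by
  have h3 := hc _ _ h1
  have h4 := hc _ _ h2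
  revert h3 h4
  cases c u <;> cases c v <;> cases c w <;> simp

theorem star (v : V) : (Nb G v).card + 1 ≤ treeNumber G := by
  have h1 := leaves (it_singleton G v) (mem_singleton_self v) (Nb G v) (by
      intro s hs
      rw [mem_Nb] at hs
      refine ⟨?_, hs, ?_⟩
      · rw [mem_singleton]
        rintro rfl
        exact G.loopless.irrefl _ hs
      · intro w hw _
        rwa [mem_singleton] at hw) (by
      intro s hs t ht
      rw [mem_Nb] at hs ht
      exact not_adj_of_col hc (col_eq hc hs.symm ht))
  have h2 := card_le_treeNumber G h1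
  rw [card_union_of_disjoint] at h2
  · rw [card_singleton] at h2
    omega
  · rw [disjoint_singleton_left, mem_Nb]
    exact G.loopless.irrefl _

theorem dstar {v v' y : V} (hne : v ≠ v') (h1 : G.Adj v y) (h2 : G.Adj v' y) :
    3 + (Nb G v \ Nb G v').card + (Nb G v' \ Nb G v).card ≤ treeNumber G := by
  have hvv : c v = c v' := col_eq hc h1 h2.symm
  have t1 := it_singleton G v
  have hyv : y ≠ v := by
    rintro rfl
    exact G.loopless.irrefl _ h1
  have hyv' : y ≠ v' := by
    rintro rfl
    exact G.loopless.irrefl _ h2
  have t2 : IT G {y, v} := t1.leaf (u := v) (v := y) (by rwa [mem_singleton])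
    (mem_singleton_self v) h1 (fun w hw _ => by rwa [mem_singleton] at hw)
  have t3 : IT G {v', y, v} := t2.leaf (u := y) (v := v') (by
      rw [mem_insert, mem_singleton]
      rintro (h | h)
      · exact hyv' h.symm
      · exact hne h.symm) (mem_insert_self _ _) h2.symm (by
      intro w hw ha
      rw [mem_insert, mem_singleton] at hw
      rcases hw with rfl | rfl
      · rfl
      · exact absurd ha (not_adj_of_col hc hvv))
  have hcN : ∀ s ∈ Nb G v, c s = c y := by
    intro s hs
    rw [mem_Nb] at hs
    exact col_eq hc hs.symm h1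
  have hcN' : ∀ s ∈ Nb G v', c s = c y := by
    intro s hs
    rw [mem_Nb] at hs
    exact col_eq hc hs.symm h2
  have t4 := leaves t3 (u := v) (by simp) (Nb G v \ Nb G v') (by
      intro s hs
      rw [mem_sdiff] at hs
      have hs1 := hs.1
      have hs2 := hs.2
      rw [mem_Nb] at hs1 hs2
      refine ⟨?_, hs1, ?_⟩
      · simp only [mem_insert, mem_singleton]
        rintro (rfl | rfl | rfl)
        · exact absurd hs1 (not_adj_of_col hc hvv)
        · exact hs2 h2
        · exact G.loopless.irrefl _ hs1
      · intro w hw ha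
        simp only [mem_insert, mem_singleton] at hw
        rcases hw with rfl | rfl | rfl
        · exact absurd ha hs2
        · exact absurd ha (not_adj_of_col hc (hcN s hs.1).symm)
        · rfl) (by
      intro s hs t ht
      rw [mem_sdiff] at hs ht
      exact not_adj_of_col hc ((hcN s hs.1).trans (hcN t ht.1).symm))
  have t5 := leaves t4 (u := v') (by simp) (Nb G v' \ Nb G v) (by
      intro s hs
      rw [mem_sdiff] at hs
      have hs1 := hs.1
      have hs2 := hs.2
      rw [mem_Nb] at hs1 hs2
      refine ⟨?_, hs1, ?_⟩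
      · simp only [mem_union, mem_insert, mem_singleton, mem_sdiff]
        rintro ((rfl | rfl | rfl) | h)
        · exact G.loopless.irrefl _ hs1
        · exact hs2 h1
        · exact absurd hs1 (not_adj_of_col hc hvv.symm)
        · exact hs.2 h.1
      · intro w hw ha
        simp only [mem_union, mem_insert, mem_singleton, mem_sdiff] at hw
        rcases hw with (rfl | rfl | rfl) | hw
        · rfl
        · exact absurd ha (not_adj_of_col hc (hcN' s hs.1).symm)
        · exact absurd ha hs2
        · exact absurd ha (not_adj_of_col hc ((hcN w hw.1).trans (hcN' s hs.1).symm))) (by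
      intro s hs t ht
      rw [mem_sdiff] at hs ht
      exact not_adj_of_col hc ((hcN' s hs.1).trans (hcN' t ht.1).symm))
  have h3 := card_le_treeNumber G t5
  have d1 : Disjoint ({v', y, v} : Finset V) (Nb G v \ Nb G v') := by
    rw [Finset.disjoint_left]
    intro s hs hs'
    rw [mem_sdiff] at hs'
    have hs1 := hs'.1
    have hs2 := hs'.2
    rw [mem_Nb] at hs1 hs2
    simp only [mem_insert, mem_singleton] at hs
    rcases hs with rfl | rfl | rfl
    · exact absurd hs1 (not_adj_of_col hc hvv)
    · exact hs2 h2
    · exact G.loopless.irrefl _ hs1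
  have d2 : Disjoint (({v', y, v} : Finset V) ∪ (Nb G v \ Nb G v')) (Nb G v' \ Nb G v) := by
    rw [Finset.disjoint_left]
    intro s hs hs'
    rw [mem_sdiff] at hs'
    have hs1 := hs'.1
    have hs2 := hs'.2
    rw [mem_Nb] at hs1 hs2
    simp only [mem_union, mem_insert, mem_singleton, mem_sdiff] at hs
    rcases hs with (rfl | rfl | rfl) | h
    · exact G.loopless.irrefl _ hs1
    · exact hs2 h1
    · exact absurd hs1 (not_adj_of_col hc hvv.symm)
    · exact hs'.2 h.1
  rw [card_union_of_disjoint d2, card_union_of_disjoint d1] at h3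
  have h4 : ({v', y, v} : Finset V).card = 3 := by
    rw [card_insert_of_notMem, card_insert_of_notMem, card_singleton]
    · rwa [mem_singleton]
    · rw [mem_insert, mem_singleton]
      rintro (h | h)
      · exact hyv' h.symm
      · exact hne h.symm
  omega

variable {k : ℕ} (hk : treeNumber G ≤ k + 2) (hd : ∀ v, k ≤ (Nb G v).card)

include hk in
theorem deg_le (v : V) : (Nb G v).card ≤ k + 1 := by
  have := star hc v
  omega

include hk in
theorem inter_ge {v v' : V} (hne : v ≠ v') (h : (Nb G v ∩ Nb G v').Nonempty) :
    (Nb G v).card + (Nb G v').card + 1 ≤ 2 * (Nb G v ∩ Nb G v').card + k := by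
  obtain ⟨y, hy⟩ := h
  rw [mem_inter, mem_Nb, mem_Nb] at hy
  have h1 := dstar hc hne hy.1 hy.2
  have h2 := card_sdiff_add_card_inter (Nb G v) (Nb G v')
  have h3 := card_sdiff_add_card_inter (Nb G v') (Nb G v)
  rw [inter_comm] at h3
  omega

include hk hd in
theorem near (hG : G.Connected) (v : V) : ∀ u, c u = c v → u ≠ v →
    (Nb G v ∩ Nb G u).Nonempty := by
  have key : ∀ u (w : G.Walk u v), (c u = c v → u = v ∨ (Nb G v ∩ Nb G u).Nonempty) ∧
      (c u ≠ c v → ∃ z, (z = v ∨ (Nb G v ∩ Nb G z).Nonempty) ∧ G.Adj z u) := by
    intro u w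
    induction w with
    | nil => exact ⟨fun _ => Or.inl rfl, fun h => absurd rfl h⟩
    | @cons a x v' hadj w ih =>
      have hxa := hc _ _ hadj
      constructor
      · intro hav
        have hxv : c x ≠ c v' := by
          rw [← hav]
          exact hxa.symm
        obtain ⟨z, hz, hzx⟩ := ih.2 hxv
        by_cases hav' : a = v'
        · exact Or.inl hav'
        right
        rcases hz with rfl | hz
        · exact ⟨x, by rw [mem_inter, mem_Nb, mem_Nb]; exact ⟨hzx, hadj⟩⟩
        by_cases hza : z = a
        · rw [← hza]
          exact hz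
        by_cases hzv : z = v'
        · rw [hzv] at hzx
          exact ⟨x, by rw [mem_inter, mem_Nb, mem_Nb]; exact ⟨hzx, hadj⟩⟩
        by_contra hcon
        rw [not_nonempty_iff_eq_empty] at hcon
        have h1 := inter_ge hc hk (Ne.symm hzv) hz
        have h2 := inter_ge hc hk (v := a) (v' := z) (Ne.symm hza)
          ⟨x, by rw [mem_inter, mem_Nb, mem_Nb]; exact ⟨hadj, hzx⟩⟩
        have h3 : (Nb G v' ∩ Nb G z).card + (Nb G a ∩ Nb G z).card ≤ (Nb G z).card := by
          rw [← card_union_of_disjoint]
          · apply card_le_card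
            intro y hy
            rw [mem_union, mem_inter, mem_inter] at hy
            rcases hy with hy | hy
            · exact hy.2
            · exact hy.2
          · rw [Finset.disjoint_left]
            intro y hy hy'
            rw [mem_inter] at hy hy'
            have : y ∈ Nb G v' ∩ Nb G a := by
              rw [mem_inter]
              exact ⟨hy.1, hy'.1⟩
            rw [hcon] at this
            exact absurd this (notMem_empty _)
        have h4 := hd v'
        have h5 := hd a
        omega
      · intro hav
        have hxv : c x = c v' := by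
          revert hxa hav
          cases c x <;> cases c a <;> cases c v' <;> simp
        exact ⟨x, ih.1 hxv, hadj.symm⟩
  intro u hu hne
  obtain ⟨w⟩ := hG.preconnected u v
  rcases (key u w).1 hu with h | h
  · exact absurd h hne
  · exact h

include hk hd in
theorem side_le (hG : G.Connected) (hk1 : 1 ≤ k) (b : Bool) :
    (univ.filter (fun v => c v = b)).card ≤ 2 * k := by
  classical
  by_contra hcon
  have hne : (univ.filter (fun v => c v = b)).Nonempty := card_pos.mp (by omega)
  obtain ⟨v, hv⟩ := hne
  have hvb := (mem_filter.mp hv).2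
  set X := (univ.filter (fun v => c v = b)).erase v with hX
  have hXc : 2 * k ≤ X.card := by
    rw [hX, card_erase_of_mem hv]
    omega
  have h1 := sum_card_bipartiteAbove_eq_sum_card_bipartiteBelow (s := X) (t := Nb G v)
    (fun a y => G.Adj a y)
  have h2 : ∑ a ∈ X, ((Nb G v).card + 1) ≤
      2 * ∑ a ∈ X, (bipartiteAbove (fun a y => G.Adj a y) (Nb G v) a).card := by
    rw [mul_sum]
    apply sum_le_sum
    intro a ha
    rw [hX, mem_erase, mem_filter] at ha
    have h3 := near hc hk hd hG v a (ha.2.2.trans hvb.symm) ha.1
    have h4 := inter_ge hc hk (Ne.symm ha.1) h3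
    have h5 := hd a
    have h6 : bipartiteAbove (fun a y => G.Adj a y) (Nb G v) a = Nb G v ∩ Nb G a := by
      ext y
      rw [mem_bipartiteAbove, mem_inter, mem_Nb (v := a)]
    rw [h6]
    omega
  have h3 : ∑ y ∈ Nb G v, (bipartiteBelow (fun a y => G.Adj a y) X y).card ≤
      ∑ y ∈ Nb G v, k := by
    apply sum_le_sum
    intro y hy
    have h4 := deg_le hc hk y
    have h5 : bipartiteBelow (fun a y => G.Adj a y) X y ⊆ (Nb G y).erase v := by
      intro a ha
      rw [mem_bipartiteBelow, hX, mem_erase] at ha
      rw [mem_erase, mem_Nb]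
      exact ⟨ha.1.1, ha.2.symm⟩
    have h6 := card_le_card h5
    rw [card_erase_of_mem] at h6
    · omega
    · rw [mem_Nb] at hy ⊢
      exact hy.symm
  rw [h1] at h2
  rw [sum_const, smul_eq_mul] at h2 h3
  have h7 : 2 * k * ((Nb G v).card + 1) ≤ X.card * ((Nb G v).card + 1) :=
    Nat.mul_le_mul_right _ hXc
  nlinarith

include hk hd in
theorem diff_le (hG : G.Connected) (hk1 : 1 ≤ k) (b : Bool) :
    (univ.filter (fun v => c v = b)).card ≤ (univ.filter (fun v => c v = !b)).card + 1 := by
  classical
  by_contra hcon
  have hs := side_le hc hk hd hG hk1 b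
  set X := univ.filter (fun v => c v = b) with hX
  set Y := univ.filter (fun v => c v = !b) with hY
  have h1 := sum_card_bipartiteAbove_eq_sum_card_bipartiteBelow (s := X) (t := Y)
    (fun a y => G.Adj a y)
  have h2 : ∑ a ∈ X, k ≤ ∑ a ∈ X, (bipartiteAbove (fun a y => G.Adj a y) Y a).card := by
    apply sum_le_sum
    intro a ha
    refine (hd a).trans (card_le_card ?_)
    intro y hy
    rw [mem_Nb] at hy
    rw [mem_bipartiteAbove, hY, mem_filter]
    refine ⟨⟨mem_univ _, ?_⟩, hy⟩
    rw [hX, mem_filter] at ha
    have := hc _ _ hy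
    rw [ha.2] at this
    revert this
    cases c y <;> cases b <;> simp
  have h3 : ∑ y ∈ Y, (bipartiteBelow (fun a y => G.Adj a y) X y).card ≤
      ∑ y ∈ Y, (k + 1) := by
    apply sum_le_sum
    intro y hy
    refine (card_le_card ?_).trans (deg_le hc hk y)
    intro a ha
    rw [mem_bipartiteBelow] at ha
    rw [mem_Nb]
    exact ha.2.symm
  rw [h1] at h2
  rw [sum_const, smul_eq_mul] at h2 h3
  have h4 : (Y.card + 2) * k ≤ X.card * k := Nat.mul_le_mul_right _ (by omega)
  nlinarith

end

/-- Q1 for bipartite graphs -/
theorem bip_main (G : SimpleGraph V) (hG : G.Connected) (hn : 1 < Fintype.card V)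
    (h2 : G.Colorable 2) (h : treeNumber G ≤ vertexConnectivity G + 2) :
    ∃ (u v : V) (p : G.Walk u v), p.IsPath ∧ ∀ w, w ∈ p.support := by
  classical
  obtain ⟨C⟩ := h2
  have hc : ∀ u v, G.Adj u v → (decide (C u = 0) : Bool) ≠ decide (C v = 0) := by
    intro u v ha
    have := C.valid ha
    revert this
    generalize C u = a
    generalize C v = b
    fin_cases a <;> fin_cases b <;> simp
  have hk1 := one_le_vertexConnectivity G hG hn
  have hne := hG.nonempty
  obtain ⟨p, hp⟩ := ham_path hG (fun v => decide (C v = 0)) hc hk1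
    (by
      intro v
      have := deg_ge G v
      unfold Nb at this
      convert this using 2)
    (side_le (c := fun v => decide (C v = 0)) hc h (deg_ge G) hG hk1)
    (diff_le (c := fun v => decide (C v = 0)) hc h (deg_ge G) hG hk1)
  exact walk_of_pa hp

end Pool.Agent.H61B
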