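import Mathlib

/-!
# Hamiltonian paths in bipartite graphs with small sides
-/

set_option autoImplicit false

namespace Pool.Agent.H61B

open SimpleGraph Finset

variable {V : Type*}

/-- a path with `L` vertices, given by a function on the natural numbers -/
structure Pa (G : SimpleGraph V) (L : ℕ) (p : ℕ → V) : Prop where
  adj : ∀ i, i + 1 < L → G.Adj (p i) (p (i + 1))
  inj : ∀ i j, i < L → j < L → p i = p j → i = j

/-- reversal -/
theorem Pa.rev {G : SimpleGraph V} {L : ℕ} {p : ℕ → V} (h : Pa G L p) :
    Pa G L (fun i => p (L - 1 - i)) := by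
  constructor
  · intro i hi
    have := h.adj (L - 1 - (i + 1)) (by omega)
    have e : L - 1 - (i + 1) + 1 = L - 1 - i := by omega
    rw [e] at this
    exact this.symm
  · intro i j hi hj e
    have := h.inj _ _ (by omega) (by omega) e
    omega

/-- rotation at a neighbour `p (i + 1)` of the first vertex: the new first vertex is `p i` -/
theorem Pa.rot {G : SimpleGraph V} {L : ℕ} {p : ℕ → V} (h : Pa G L p) {i : ℕ} (hi : i + 1 < L)
    (ha : G.Adj (p 0) (p (i + 1))) :
    Pa G L (fun j => if j ≤ i then p (i - j) else p j) := by
  constructor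
  · intro j hj
    by_cases h1 : j + 1 ≤ i
    · rw [if_pos (by omega), if_pos h1]
      have := h.adj (i - (j + 1)) (by omega)
      have e : i - (j + 1) + 1 = i - j := by omega
      rw [e] at this
      exact this.symm
    · by_cases h2 : j ≤ i
      · have e : j = i := by omega
        subst e
        rw [if_pos le_rfl, if_neg (by omega), Nat.sub_self]
        exact ha
      · rw [if_neg h2, if_neg (by omega)]
        exact h.adj j hj
  · intro a b ha' hb' e
    by_cases h1 : a ≤ i <;> by_cases h2 : b ≤ i
    · rw [if_pos h1, if_pos h2] at e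
      have := h.inj _ _ (by omega) (by omega) e
      omega
    · rw [if_pos h1, if_neg h2] at e
      have := h.inj _ _ (by omega) (by omega) e
      omega
    · rw [if_neg h1, if_pos h2] at e
      have := h.inj _ _ (by omega) (by omega) e
      omega
    · rw [if_neg h1, if_neg h2] at e
      exact h.inj _ _ ha' hb' e

/-- a new vertex before the first one -/
theorem Pa.cons {G : SimpleGraph V} {L : ℕ} {p : ℕ → V} (h : Pa G L p) {w : V}
    (hw : ∀ i, i < L → p i ≠ w) (ha : 0 < L → G.Adj w (p 0)) :
    Pa G (L + 1) (fun j => if j = 0 then w else p (j - 1)) := by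
  constructor
  · intro j hj
    by_cases h1 : j = 0
    · subst h1
      simp only [if_true, if_neg (Nat.succ_ne_zero 0)]
      simpa using ha (by omega)
    · rw [if_neg h1, if_neg (by omega)]
      have := h.adj (j - 1) (by omega)
      have e : j - 1 + 1 = j + 1 - 1 := by omega
      rw [e] at this
      exact this
  · intro a b ha' hb' e
    by_cases h1 : a = 0 <;> by_cases h2 : b = 0
    · omega
    · rw [if_pos h1, if_neg h2] at e
      exact absurd e.symm (hw _ (by omega))
    · rw [if_neg h1, if_pos h2] at e
      exact absurd e (hw _ (by omega))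
    · rw [if_neg h1, if_neg h2] at e
      have := h.inj _ _ (by omega) (by omega) e
      omega

/-- cutting a closed path: the new first vertex is `p i` -/
theorem Pa.cut {G : SimpleGraph V} {L : ℕ} {p : ℕ → V} (h : Pa G L p)
    (hc : G.Adj (p (L - 1)) (p 0)) {i : ℕ} (hi : i < L) :
    Pa G L (fun j => if i + j < L then p (i + j) else p (i + j - L)) := by
  constructor
  · intro j hj
    by_cases h1 : i + (j + 1) < L
    · rw [if_pos (by omega), if_pos h1]
      exact h.adj (i + j) (by omega)
    · by_cases h2 : i + j < L
      · rw [if_pos h2, if_neg h1]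
        have e1 : i + j = L - 1 := by omega
        have e2 : i + (j + 1) - L = 0 := by omega
        rw [e1, e2]
        exact hc
      · rw [if_neg h2, if_neg h1]
        have := h.adj (i + j - L) (by omega)
        have e : i + j - L + 1 = i + (j + 1) - L := by omega
        rw [e] at this
        exact this
  · intro a b ha' hb' e
    by_cases h1 : i + a < L <;> by_cases h2 : i + b < L
    · rw [if_pos h1, if_pos h2] at e
      have := h.inj _ _ (by omega) (by omega) e
      omega
    · rw [if_pos h1, if_neg h2] at e
      have := h.inj _ _ (by omega) (by omega) e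
      omega
    · rw [if_neg h1, if_pos h2] at e
      have := h.inj _ _ (by omega) (by omega) e
      omega
    · rw [if_neg h1, if_neg h2] at e
      have := h.inj _ _ (by omega) (by omega) e
      omega

/-- the path of maximal length -/
theorem exists_max [Fintype V] [Nonempty V] (G : SimpleGraph V) :
    ∃ (L : ℕ) (p : ℕ → V), 0 < L ∧ Pa G L p ∧ ∀ q, ¬ Pa G (L + 1) q := by
  classical
  have hb : ∀ L p, Pa G L p → L ≤ Fintype.card V := by
    intro L p h
    have : (range L).card ≤ (univ : Finset V).card :=
      card_le_card_of_injOn p (fun _ _ => mem_univ _) (by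
        intro a ha b hb e
        rw [mem_coe, mem_range] at ha hb
        exact h.inj a b ha hb e)
    simpa using this
  obtain ⟨v⟩ := ‹Nonempty V›
  have h1 : ∃ L, 0 < L ∧ ∃ p, Pa G L p := by
    refine ⟨1, one_pos, fun _ => v, ?_, ?_⟩
    · intro i hi
      omega
    · intro i j hi hj _
      omega
  have h1' : ∃ L, 0 < L ∧ ∃ p, Pa G L p := h1
  have hex : ∃ L, (0 < L ∧ ∃ p, Pa G L p) ∧ ∀ M, (0 < M ∧ ∃ p, Pa G M p) → M ≤ L := by
    have hP := Nat.findGreatest_spec (P := fun L => 0 < L ∧ ∃ p, Pa G L p) (n := Fintype.card V)
      (m := h1.choose) (hb _ _ h1.choose_spec.2.choose_spec) h1.choose_spec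
    exact ⟨_, hP, fun M hM => Nat.le_findGreatest (hb _ _ hM.2.choose_spec) hM⟩
  obtain ⟨L, ⟨h0, p, hp⟩, hL⟩ := hex
  refine ⟨L, p, h0, hp, ?_⟩
  intro q hq
  have := hL (L + 1) ⟨by omega, q, hq⟩
  omega

end Pool.Agent.H61B
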